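import Pool.Agent.H51.ERA.Stmts

/-!
MP_e0047e_lc, module CSY of board `era`: the cut system of a propagating grammar.
-/

set_option autoImplicit false

namespace Pool.Agent.H12.ERA

open Pool.Agent.H51.ERA

theorem der_trans {T N Λ : Type} {lb : Λ → ContextFreeRule T N} {rs rs' : List Λ}
    {u v w : List (Symbol T N)} (h : Der lb rs u v) (h' : Der lb rs' v w) :
    Der lb (rs ++ rs') u w := by
  induction h with
  | nil u => exact h'
  | cons hr _ ih => exact Der.cons hr (ih h')

theorem der_one {T N Λ : Type} {lb : Λ → ContextFreeRule T N} {r : Λ}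
    {u v : List (Symbol T N)} (h : (lb r).Rewrites u v) : Der lb [r] u v :=
  Der.cons h (Der.nil v)

/-- The cut predicate. -/
def CutP {N Λ σ : Type} (S : N) (lb : Λ → ContextFreeRule Ltr N) (M : DFA Λ σ)
    (q : σ) (K : List (Sg N)) : Prop :=
  (∃ u : List Λ, M.eval u = q ∧ Der lb u [Symbol.nonterminal S] (K.map Prod.fst)) ∧
  (∃ z : List Λ, M.evalFrom q z ∈ M.accept ∧ Par lb z K)

theorem walk {N Λ σ : Type} (S : N) (lb : Λ → ContextFreeRule Ltr N) (M : DFA Λ σ)
    (rho : ℕ) (hrho : ∀ l : Λ, (lb l).output.length ≤ rho) (w : List Ltr)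
    (p : List (Sg N) → Prop)
    (hp : ∀ K : List (Sg N), (∀ x ∈ K, x.2.length = 1) → yl K = w → p K)
    (rs : List Λ) (K : List (Sg N)) (hK : Par lb rs K) :
    ∀ u : List Λ, Der lb u [Symbol.nonterminal S] (K.map Prod.fst) →
      M.evalFrom (M.eval u) rs ∈ M.accept → yl K = w → ¬ p K →
    ∃ q₁ K₁ q K, CutP S lb M q₁ K₁ ∧ CutP S lb M q K ∧ yl K₁ = w ∧ yl K = w ∧ ¬ p K₁ ∧ p K ∧
      K.length ≤ K₁.length + rho := by
  induction hK with
  | nil w' =>
    intro u _ _ hw hnp
    exact absurd (hp _ (by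
      intro x hx
      obtain ⟨a, _, rfl⟩ := List.mem_map.1 hx
      rfl) hw) hnp
  | cons r rs K₁ Ks K₂ hout hpar ih =>
    intro u hu hacc hw hnp
    have hlen : Ks.length = (lb r).output.length := by
      rw [← hout, List.length_map]
    have hyl : yl (K₁ ++ Ks ++ K₂) = w := by
      rw [← hw]
      simp [yl, List.flatMap_append]
    have hstep : (lb r).Rewrites
        ((K₁ ++ [(Symbol.nonterminal (lb r).input, Ks.flatMap Prod.snd)] ++ K₂).map Prod.fst)
        ((K₁ ++ Ks ++ K₂).map Prod.fst) := by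
      rw [ContextFreeRule.rewrites_iff]
      refine ⟨K₁.map Prod.fst, K₂.map Prod.fst, by simp, ?_⟩
      rw [← hout]
      simp
    have hu' : Der lb (u ++ [r]) [Symbol.nonterminal S] ((K₁ ++ Ks ++ K₂).map Prod.fst) :=
      der_trans hu (der_one hstep)
    have hev : M.evalFrom (M.eval (u ++ [r])) rs = M.evalFrom (M.eval u) (r :: rs) := by
      simp [DFA.eval, DFA.evalFrom, List.foldl_append]
    have hacc' : M.evalFrom (M.eval (u ++ [r])) rs ∈ M.accept := by
      rw [hev]; exact hacc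
    by_cases hpK : p (K₁ ++ Ks ++ K₂)
    · refine ⟨M.eval u, K₁ ++ [(Symbol.nonterminal (lb r).input, Ks.flatMap Prod.snd)] ++ K₂,
        M.eval (u ++ [r]), K₁ ++ Ks ++ K₂, ⟨⟨u, rfl, hu⟩, ⟨r :: rs, hacc, ?_⟩⟩,
        ⟨⟨u ++ [r], rfl, hu'⟩, ⟨rs, hacc', hpar⟩⟩, hw, hyl, hnp, hpK, ?_⟩
      · exact Par.cons r rs K₁ Ks K₂ hout hpar
      · have := hrho r
        simp only [List.length_append, List.length_singleton]
        omega
    · exact ih (u ++ [r]) hu' hacc' hyl hpK

theorem CSY_thm (hPRA : PRAStmt) (hPRB : PRBStmt) (hPRC : PRCStmt) : CSYStmt := by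
  intro N Λ σ _ S lb M hne
  refine ⟨Finset.univ.sup (fun l => (lb l).output.length), ⟨?_⟩⟩
  refine
    { S := S
      Cut := CutP S lb M
      ne := ?_
      term := ?_
      hyb := ?_
      first := ?_ }
  · rintro q K ⟨_, z, _, hz⟩
    exact (hPRC Ltr N Λ lb z K hz).2.2 hne
  · rintro q K ⟨_, z, _, hz⟩
    exact (hPRC Ltr N Λ lb z K hz).2.1
  · rintro q K K' B ⟨⟨u, hu, hd⟩, _⟩ ⟨_, z, hz, hzp⟩ hB hfst
    have h1 := (hPRC Ltr N Λ lb z K' hzp).1 B hB
    have h2 := hPRB Ltr N Λ lb z B h1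
    rw [hfst] at h2
    refine ⟨u ++ z, ?_, der_trans hd h2⟩
    have : M.eval (u ++ z) = M.evalFrom (M.eval u) z := by
      simp [DFA.eval, DFA.evalFrom, List.foldl_append]
    rw [this, hu]
    exact hz
  · rintro w ⟨rs, hacc, hder⟩ p hnp hp
    obtain ⟨K, hK1, hK2, hpar⟩ := hPRA Ltr N Λ lb rs _ w hder
    have hK : K = [(Symbol.nonterminal S, w)] := by
      cases K with
      | nil => simp at hK1
      | cons x K' =>
        cases K' with
        | nil =>
          simp only [List.map_cons, List.map_nil, List.cons.injEq, and_true] at hK1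
          simp only [List.flatMap_cons, List.flatMap_nil, List.append_nil] at hK2
          rw [← hK1, ← hK2]
        | cons y K'' => simp at hK1
    refine walk S lb M _ (fun l => Finset.le_sup (f := fun l => (lb l).output.length)
      (Finset.mem_univ l)) w p hp rs K hpar [] ?_ ?_ ?_ ?_
    · rw [hK1]; exact Der.nil _
    · exact hacc
    · exact hK2
    · rw [hK]; exact hnp

end Pool.Agent.H12.ERA
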